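import Pool.Agent.W593.ZT.Stm

/-! ZT-T6 -/

open scoped Classical

set_option autoImplicit false

namespace Pool.Agent.W701.ZT

open Pool.Agent.W593.ZT

theorem t6 (hC3 : S_C3) (hCOMP : S_COMP) (hTREE2 : S_TREE2) (hNSL : S_NSL) : S_T6 := by
  intro V G _ _ _ c hc T hT3 hn1 M hM3 hM2 hnc
  have hTne : T.Nonempty := by
    rw [← Finset.card_pos, hT3]
    norm_num
  obtain ⟨x, hx⟩ := hTne
  have hG : Fintype.card G = 6 := by
    have h1 := M.card_mul_index
    rw [hM3, hM2, Nat.card_eq_fintype_card] at h1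
    omega
  set O : Finset V := Finset.univ \ T with hO
  have hOc : O.card = 4 := by
    rw [hO, Finset.card_sdiff_of_subset (Finset.subset_univ T), Finset.card_univ, hc.card, hG, hT3]
  have hCne : ∀ z, (Cs c T z).Nonempty := fun z => ⟨c z x, Finset.mem_image_of_mem _ hx⟩
  have hxm : ∀ z, c z x ∈ Cs c T z := fun z => Finset.mem_image_of_mem _ hx
  have hTc : ∀ z ∈ O, Tc M (Cs c T z) := by
    intro z hz
    by_contra hcon
    have h1 : z ∈ nc c M Finset.univ T := Finset.mem_filter.2 ⟨hz, hcon⟩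
    rw [Finset.card_eq_zero] at hnc
    rw [hnc] at h1
    simp at h1
  -- the special vertex
  obtain ⟨ρ, hρO, hρ⟩ : ∃ ρ ∈ O, ∀ z ∈ O, z ≠ ρ → 2 ≤ (Cs c T z).card := by
    have hstep : ∀ z, (Cs c T z).card ≠ 1 → 2 ≤ (Cs c T z).card := by
      intro z hz
      have := Finset.card_pos.2 (hCne z)
      omega
    unfold n1 at hn1
    by_cases hF : (O.filter (fun z => (Cs c T z).card = 1)).Nonempty
    · obtain ⟨ρ, hρ⟩ := hF
      refine ⟨ρ, (Finset.mem_filter.1 hρ).1, fun z hz hne => hstep z fun h1 => ?_⟩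
      exact hne (Finset.card_le_one.1 hn1 z (Finset.mem_filter.2 ⟨hz, h1⟩) ρ hρ)
    · have hOne : O.Nonempty := by
        rw [← Finset.card_pos, hOc]
        norm_num
      obtain ⟨ρ, hρ⟩ := hOne
      refine ⟨ρ, hρ, fun z hz _ => hstep z fun h1 => ?_⟩
      exact hF ⟨z, Finset.mem_filter.2 ⟨hz, h1⟩⟩
  by_cases hcase : ∃ l ∈ O, ∃ h ∈ O, l ≠ h ∧ (ρ = l ∨ ρ = h) ∧ c l h - c l x ∉ M
  · obtain ⟨l, hl, h, hh, hlh, hρlh, hnot⟩ := hcase
    set Z1 : Finset V := O \ {l, h} with hZ1
    have hsub : ({l, h} : Finset V) ⊆ O := by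
      intro y hy
      rcases Finset.mem_insert.1 hy with rfl | hy
      · exact hl
      · rw [Finset.mem_singleton.1 hy]
        exact hh
    have hZ1c : Z1.card = 2 := by
      rw [hZ1, Finset.card_sdiff_of_subset hsub, hOc, Finset.card_pair hlh]
    have hZ1O : ∀ z ∈ Z1, z ∈ O ∧ z ≠ l ∧ z ≠ h := by
      intro z hz
      rw [hZ1, Finset.mem_sdiff, Finset.mem_insert, Finset.mem_singleton, not_or] at hz
      exact ⟨hz.1, hz.2.1, hz.2.2⟩
    have hZ1ρ : ∀ z ∈ Z1, z ≠ ρ := by
      intro z hz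
      obtain ⟨_, h2, h3⟩ := hZ1O z hz
      rcases hρlh with h4 | h4
      · rw [h4]; exact h2
      · rw [h4]; exact h3
    have hc1 : Cov ⊥ M Z1 (Cs c T) := by
      apply hC3 V G M hM3 Z1 (Cs c T) fun z hz => ⟨hCne z, hTc z (hZ1O z hz).1⟩
      calc 2 = ∑ z ∈ Z1, 1 := by rw [Finset.sum_const, hZ1c]; rfl
        _ ≤ ∑ z ∈ Z1, ((Cs c T z).card - 1) := Finset.sum_le_sum fun z hz => by
            have := hρ z (hZ1O z hz).1 (hZ1ρ z hz)
            omega
    set A2 : V → Finset G := fun _ => {c l x, c l h} with hA2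
    have hc2 : Cov M ⊤ {l} A2 := by
      intro r0 _ s _
      have h1 : c l x - c l h ∉ M := fun h => hnot (by
        have := M.neg_mem h
        rwa [neg_sub] at this)
      by_cases hs : s - c l x ∈ M
      · refine ⟨c l x, ⟨fun _ => c l x, fun z _ => by simp [hA2], by simp⟩, hs⟩
      · refine ⟨c l h, ⟨fun _ => c l h, fun z _ => by simp [hA2], by simp⟩, ?_⟩
        have h2 : s - c l h = (s - c l x) + (c l x - c l h) := by abel
        rw [h2, AddSubgroup.add_mem_iff_of_index_two hM2]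
        exact iff_of_false hs h1
    have hdis : Disjoint Z1 ({l} : Finset V) := by
      rw [Finset.disjoint_singleton_right]
      exact fun h => (hZ1O l h).2.1 rfl
    have hcov := hCOMP V G ⊥ M ⊤ Z1 {l} (Cs c T) A2 le_top hdis
      (fun z hz => ⟨hCne z, hTc z (hZ1O z hz).1⟩) (fun z _ => ⟨c l x, by simp [hA2]⟩) hc1 hc2
    apply hc.not
    have hOT : ∀ z ∈ O, z ∉ T := fun z hz => (Finset.mem_sdiff.1 hz).2
    refine hTREE2 V G c hc.sym (insert h T) (Z1 ∪ {l}) _ ⟨h, Finset.mem_insert_self _ _⟩ ?_ ?_ hcov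
    · intro z hz
      rw [Finset.mem_sdiff, Finset.mem_insert, not_or]
      rcases Finset.mem_union.1 hz with hz | hz
      · exact ⟨Finset.mem_univ _, (hZ1O z hz).2.2, hOT z (hZ1O z hz).1⟩
      · rw [Finset.mem_singleton.1 hz]
        exact ⟨Finset.mem_univ _, hlh, hOT l hl⟩
    · intro z hz
      by_cases hz1 : z ∈ Z1
      · rw [if_pos hz1]
        exact ⟨hCne z, Finset.image_subset_image (Finset.subset_insert _ _)⟩
      · rw [if_neg hz1]
        have hzl : z = l := by
          rcases Finset.mem_union.1 hz with h1 | h1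
          · exact absurd h1 hz1
          · exact Finset.mem_singleton.1 h1
        refine ⟨⟨c l x, by simp [hA2]⟩, ?_⟩
        intro y hy
        rw [hzl]
        simp only [hA2, Finset.mem_insert, Finset.mem_singleton] at hy
        rcases hy with rfl | rfl
        · exact Finset.mem_image_of_mem _ (Finset.mem_insert_of_mem hx)
        · exact Finset.mem_image_of_mem _ (Finset.mem_insert_self _ _)
  · push Not at hcase
    have hcong : ∀ z ∈ O, z ≠ ρ → c z x - c ρ x ∈ M := by
      intro z hz hne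
      have h1 := hcase ρ hρO z hz hne.symm (Or.inl rfl)
      have h2 := hcase z hz ρ hρO hne (Or.inr rfl)
      rw [hc.sym z ρ] at h2
      have h3 : c z x - c ρ x = (c ρ z - c ρ x) - (c ρ z - c z x) := by abel
      rw [h3]
      exact M.sub_mem h1 h2
    have hOρ : (O.erase ρ).card = 3 := by
      rw [Finset.card_erase_of_mem hρO, hOc]
    obtain ⟨Z, hZsub, hZc⟩ := Finset.exists_subset_card_eq (show 2 ≤ (O.erase ρ).card by omega)
    have hZO : ∀ z ∈ Z, z ∈ O ∧ z ≠ ρ := fun z hz => by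
      have := Finset.mem_erase.1 (hZsub hz)
      exact ⟨this.2, this.1⟩
    have hc1 : Cov ⊥ M Z (Cs c T) := by
      apply hC3 V G M hM3 Z (Cs c T) fun z hz => ⟨hCne z, hTc z (hZO z hz).1⟩
      calc 2 = ∑ z ∈ Z, 1 := by rw [Finset.sum_const, hZc]; rfl
        _ ≤ ∑ z ∈ Z, ((Cs c T z).card - 1) := Finset.sum_le_sum fun z hz => by
            have := hρ z (hZO z hz).1 (hZO z hz).2
            omega
    have hMt : M ≠ ⊤ := by
      rintro rfl
      rw [AddSubgroup.index_top] at hM2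
      omega
    have hfin := hNSL V G c hc M (c ρ x) T Z (Cs c T) (fun z => c z x) hMt ⟨x, hx⟩
      (by
        rw [Finset.disjoint_left]
        intro y hy hyZ
        exact (Finset.mem_sdiff.1 (hZO y hyZ).1).2 hy)
      (fun z _ => subset_rfl) hc1 (fun z _ => hxm z) (by
        rw [← Finset.sum_const, ← Finset.sum_sub_distrib]
        exact M.sum_mem fun z hz => hcong z (hZO z hz).1 (hZO z hz).2)
    have hmem : ρ ∈ (Finset.univ \ (T ∪ Z)).filter (fun y => ∃ h ∈ T, c y h - c ρ x ∈ M) := by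
      rw [Finset.mem_filter, Finset.mem_sdiff, Finset.mem_union, not_or]
      refine ⟨⟨Finset.mem_univ _, (Finset.mem_sdiff.1 hρO).2, fun h => (hZO ρ h).2 rfl⟩, x, hx, ?_⟩
      rw [sub_self]
      exact M.zero_mem
    have hpos := Finset.card_pos.2 ⟨ρ, hmem⟩
    rw [hM2] at hfin
    omega

end Pool.Agent.W701.ZT
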